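import Pool.Agent.Q87.KX.Cross

/-!
# MP_ac5134: the Kakeya inequality in tube form in terms of crossing places

Work in `ℝ^n = ℝ^d × ℝ`, `n = d + 1`, with its Euclidean norm (`Space d`), and let `P` be the
paraboloid `{(ω, |ω|²)}`, `|ω| ≤ 1`.  The box dual to the cap at `ω` is `box N (nor ω) f 0`: its long
side `N²` is in the direction of the unit normal `nor ω = (-2ω, 1)/√(1+4|ω|²)` and its other sides `N`
are in the directions of an arbitrary orthonormal frame `f` of the orthogonal complement.

For ALL translates (the centres `a i` are arbitrary) the comparison of Q1 with the centred family holds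
for every `p` in `[1, ∞]`, with the constant `C ((1 + M) (1 + log N))^θ`,
`θ = min ((n-1)(1-1/p)) (1/p)`, where `M` is the average weight of the crossing places of a box: two
boxes whose caps are `ω`, `ω'` meet in a set of diameter about `N / |ω - ω'|`, and the places of all
the crossings of one box are described by finitely many points `p` with weights `w p`, in such a way
that the crossing with the box of `ω'` takes place at distance at most `w p N / |ω - ω'|` from one of
the points `p`.
-/

set_option autoImplicit false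

open MeasureTheory Set ENNReal NNReal

namespace Pool.Agent.Results.MP_ac5134_an.CrossingPlaces

open Pool.Agent.H810R3.Tub Pool.Agent.W772

/-- The caps have centres `ω i` in the closed unit ball, `σ/N`-separated and at least `κ N^d` in
number, and `f i` is an orthonormal frame of the orthogonal complement of the normal at `ω i`. -/
def Caps {d : ℕ} {ι : Type} [Fintype ι] (σ κ N : ℝ) (ω : ι → Vec d) (f : ι → Fin d → Space d) : Prop :=
  (∀ i, ‖ω i‖ ≤ 1) ∧ (∀ i j, i ≠ j → σ / N ≤ ‖ω i - ω j‖) ∧ κ * N ^ d ≤ (Fintype.card ι : ℝ) ∧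
    ∀ i, Orthonormal ℝ (Fin.cons (nor (ω i)) (f i) : Fin (d + 1) → Space d)

/-- The sum of the indicators of the boxes of the caps with centres `a i`. -/
noncomputable def boxSum {d : ℕ} {ι : Type} [Fintype ι] (N : ℝ) (ω : ι → Vec d)
    (f : ι → Fin d → Space d) (a : ι → Space d) (y : Space d) : ℝ :=
  ∑ i, (box N (nor (ω i)) (f i) (a i)).indicator (fun _ => (1 : ℝ)) y

/-- The points `p ∈ P i`, with the weights `w i p`, are crossing places of the boxes with the centres
`a i`: each common point `y` of the box number `i` and another box number `j` has, for some `p ∈ P i`,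
a distance of at most `w i p * N / ‖ω i - ω j‖` from `p`. -/
def CrossingPlaces {d : ℕ} {ι : Type} (N : ℝ) (ω : ι → Vec d) (f : ι → Fin d → Space d)
    (a : ι → Space d) (P : ι → Finset (Space d)) (w : ι → Space d → ℝ) : Prop :=
  (∀ i, ∀ p ∈ P i, 0 ≤ w i p) ∧
  ∀ i j, i ≠ j → ∀ y ∈ box N (nor (ω i)) (f i) (a i) ∩ box N (nor (ω j)) (f j) (a j),
    ∃ p ∈ P i, ‖y - p‖ * ‖ω i - ω j‖ ≤ w i p * N

/-- **The Kakeya inequality in tube form, for all `p` in `[1, ∞]` and all translates, in terms of the
average weight `M` of the crossing places of a box.** -/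
theorem result (d : ℕ) (hd : 1 ≤ d) (σ κ : ℝ) (hσ : 0 < σ) (hσ1 : σ ≤ 1) (hκ : 0 < κ) :
    ∃ C : ℝ, 0 < C ∧ ∀ N : ℝ, 1 ≤ N →
      ∀ (ι : Type) [Fintype ι] (ω : ι → Vec d) (f : ι → Fin d → Space d), Caps σ κ N ω f →
      ∀ (a : ι → Space d) (P : ι → Finset (Space d)) (w : ι → Space d → ℝ),
        CrossingPlaces N ω f a P w →
        ∀ M : ℝ, 0 ≤ M → ∑ i, ∑ p ∈ P i, w i p ≤ M * (Fintype.card ι : ℝ) →
        ∀ p : ℝ≥0∞, 1 ≤ p →
          eLpNorm (boxSum N ω f a) p volume ≤
            ENNReal.ofReal (C * ((1 + M) * (1 + Real.log N)) ^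
              min ((d : ℝ) * (1 - 1 / p.toReal)) (1 / p.toReal)) *
            eLpNorm (boxSum N ω f 0) p volume := by
  obtain ⟨E, hE0, hE⟩ := Q87.KX.cross_int (d := d) hd hσ hσ1
  obtain ⟨D, hD1, hD⟩ := compare_tri d hd κ E hκ hE0
  refine ⟨D, by linarith, ?_⟩
  intro N hN ι _ ω f hcaps a P w hP M hM hsum p hp
  obtain ⟨hω, hsep, hcard, hf⟩ := hcaps
  have hN0 : 0 < N := by linarith
  have hne : Nonempty ι := by
    have h1 : 0 < κ * N ^ d := by positivity
    have h2 : (0 : ℝ) < (Fintype.card ι : ℝ) := by linarith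
    have h3 : 0 < Fintype.card ι := by exact_mod_cast h2
    exact Fintype.card_pos_iff.1 h3
  have hlogN : 0 ≤ Real.log N := Real.log_nonneg hN
  have hY : (1 : ℝ) ≤ (1 + M) * (1 + Real.log N) := by nlinarith [mul_nonneg hM hlogN]
  exact hD hN hY ω f hf _ hcard
    (hE N hN ι ω hω hsep f hf a P w hP.2 hP.1 M hM hsum) p hp

end Pool.Agent.Results.MP_ac5134_an.CrossingPlaces
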