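import Pool.Agent.Q86.KsI

/-!
# MP_ac5134: the Kakeya inequality in tube form, label counts at points, and few slabs

Work in `ℝ^n = ℝ^(n-1) × ℝ`, `n = r + 2`, with its Euclidean norm (`Space (r + 1)`), and let `P` be
the paraboloid `{(ω, |ω|²)}`, `|ω| ≤ 1`.  The box dual to the cap at `ω` is `box N (nor ω) f 0`: its
long side `N²` is in the direction of the unit normal `nor ω = (-2ω, 1)/√(1+4|ω|²)` and its other
sides `N` are in the directions of an arbitrary orthonormal frame `f` of the orthogonal complement.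

For arbitrary translates (the centres `a i` are arbitrary) the comparison of Q1 with the centred
family is proved for every `p` in `[1, ∞]`, with `θ = min ((n-1)(1-1/p)) (1/p)`:

1. for ALL translates, with the constant `C ((M_0 ⋯ M_{n-3} (1 + log N))^(1/(n-1)))^θ`, where `M_k`
   is the average, over the boxes and their points `y`, of the number of different `k`-th
   coordinates (up to `1/N`) of those caps whose boxes contain `y` and which agree with the cap of
   the given box in the coordinates before the `k`-th one (coordinates `0, …, n-3`; the last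
   coordinate does not enter);
2. the same for arbitrary labels in place of the coordinates, if the caps with the same labels form
   one-dimensional classes (`Thin`);
3. for all families in which the box number `i` lies in `n - 2` slabs of width `2 K N` with
   orthonormal normals `ν i 0, …, ν i (n-3)`, with the constant
   `C ((M_0 ⋯ M_{n-3})^(1/(n-1)) (1 + log N))^θ`, where `M_k N^(k+1)` bounds the number of the
   different sequences of the first `k + 1` slabs.

In `ℝ^3` there is one coordinate, and one slab: if all the boxes lie in at most `M N` slabs of width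
about `N` (neighbourhoods of arbitrary planes), the constant is `C (M^(1/2) (1 + log N))^θ`.
-/

set_option autoImplicit false

open MeasureTheory Set ENNReal NNReal

namespace Pool.Agent.Results.MP_ac5134_an.FewSlabs

open Pool.Agent.H810R3.Tub

variable {r : ℕ}

/-- The caps have centres `ω i` in the closed unit ball, `σ/N`-separated and at least `κ N^(n-1)` in
number, and `f i` is an orthonormal frame of the orthogonal complement of the normal at `ω i`. -/
def Caps {ι : Type} [Fintype ι] (σ κ N : ℝ) (ω : ι → Vec (r + 1))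
    (f : ι → Fin (r + 1) → Space (r + 1)) : Prop :=
  (∀ i, ‖ω i‖ ≤ 1) ∧ (∀ i j, i ≠ j → σ / N ≤ ‖ω i - ω j‖) ∧
    κ * N ^ (r + 1) ≤ (Fintype.card ι : ℝ) ∧
    ∀ i, Orthonormal ℝ (Fin.cons (nor (ω i)) (f i) : Fin (r + 1 + 1) → Space (r + 1))

/-- The sum of the indicators of the boxes of the caps with centres `a i`. -/
noncomputable def boxSum {ι : Type} [Fintype ι] (N : ℝ) (ω : ι → Vec (r + 1))
    (f : ι → Fin (r + 1) → Space (r + 1)) (a : ι → Space (r + 1)) (y : Space (r + 1)) : ℝ :=
  ∑ i, (box N (nor (ω i)) (f i) (a i)).indicator (fun _ => (1 : ℝ)) y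

/-- The exponent `min ((n-1)(1-1/p)) (1/p)` of the loss. -/
noncomputable def theta (r : ℕ) (p : ℝ≥0∞) : ℝ :=
  min (((r : ℝ) + 1) * (1 - 1 / p.toReal)) (1 / p.toReal)

/-- The number of the different labels number `k` of the boxes which contain `y` and have the same
labels as the box number `i` before the label number `k`. -/
noncomputable def labelCount {ι α : Type} (N : ℝ) (ω : ι → Vec (r + 1))
    (f : ι → Fin (r + 1) → Space (r + 1)) (a : ι → Space (r + 1)) (lam : Fin r → ι → α)
    (k : Fin r) (i : ι) (y : Space (r + 1)) : ℕ :=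
  Set.ncard {c : α | ∃ j, (∀ l : Fin r, l < k → lam l j = lam l i) ∧
    y ∈ box N (nor (ω j)) (f j) (a j) ∧ lam k j = c}

/-- The average of `labelCount` over the boxes and their points is at most `M` (the volume of a box
is `N^(n+1) = N^(r+3)`). -/
def AverageAtMost {ι α : Type} [Fintype ι] (N : ℝ) (ω : ι → Vec (r + 1))
    (f : ι → Fin (r + 1) → Space (r + 1)) (a : ι → Space (r + 1)) (lam : Fin r → ι → α)
    (k : Fin r) (M : ℝ) : Prop :=
  ∑ i, ∫⁻ y in box N (nor (ω i)) (f i) (a i), (labelCount N ω f a lam k i y : ℝ≥0∞) ≤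
    ENNReal.ofReal (M * (Fintype.card ι * N ^ (r + 3)))

/-- The labels given by the first `n - 2` coordinates of the caps, up to `1/N`. -/
noncomputable def coordinate {ι : Type} (N : ℝ) (ω : ι → Vec (r + 1)) (l : Fin r) (j : ι) : ℤ :=
  ⌊N * ω j l.castSucc⌋

/-- The caps with the same labels form one-dimensional classes: at most `K (1 + ρ N)` of them are at
distance at most `ρ` from one of them. -/
def Thin {ι α : Type} (K N : ℝ) (ω : ι → Vec (r + 1)) (lam : Fin r → ι → α) : Prop :=
  ∀ i, ∀ ρ : ℝ, 0 ≤ ρ →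
    (({j | (∀ l, lam l j = lam l i) ∧ ‖ω j - ω i‖ ≤ ρ} : Set ι).ncard : ℝ) ≤ K * (1 + ρ * N)

/-- The box number `i` lies in the slabs `|⟨ν i k, y⟩ - t i k| ≤ K N`, `k < r`, with orthonormal
normals. -/
def InSlabs {ι : Type} (K N : ℝ) (ω : ι → Vec (r + 1)) (f : ι → Fin (r + 1) → Space (r + 1))
    (a : ι → Space (r + 1)) (ν : ι → Fin r → Space (r + 1)) (t : ι → Fin r → ℝ) : Prop :=
  (∀ i, Orthonormal ℝ (ν i)) ∧
    ∀ i k, ∀ y ∈ box N (nor (ω i)) (f i) (a i), |inner ℝ (ν i k) y - t i k| ≤ K * N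

/-- The number of the different sequences of the slabs number `0, …, k`. -/
noncomputable def slabCount {ι : Type} (ν : ι → Fin r → Space (r + 1)) (t : ι → Fin r → ℝ)
    (k : Fin r) : ℕ :=
  (Set.range fun (i : ι) (l : {l : Fin r // l ≤ k}) => (ν i l, t i l)).ncard

/-- The comparison of Q1 for all `p` in `[1, ∞]`, with the constant `C Y ^ θ`. -/
def Comparison {ι : Type} [Fintype ι] (C Y N : ℝ) (ω : ι → Vec (r + 1))
    (f : ι → Fin (r + 1) → Space (r + 1)) (a : ι → Space (r + 1)) : Prop :=
  ∀ p : ℝ≥0∞, 1 ≤ p → eLpNorm (boxSum N ω f a) p volume ≤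
    ENNReal.ofReal (C * Y ^ theta r p) * eLpNorm (boxSum N ω f 0) p volume

/-- **The Kakeya inequality in tube form, for all `p` in `[1, ∞]`, (1) for all translates in terms of
the numbers of coordinates of the caps of the boxes through a point, (2) the same for other labels,
(3) for boxes which lie in few slabs.** -/
theorem result (r : ℕ) (σ κ K : ℝ) (hσ : 0 < σ) (hσ1 : σ ≤ 1) (hκ : 0 < κ) (hK : 1 ≤ K) :
    ∃ C : ℝ, 0 < C ∧ ∀ N : ℝ, 1 ≤ N → ∀ (ι : Type) [Fintype ι] (ω : ι → Vec (r + 1))
      (f : ι → Fin (r + 1) → Space (r + 1)), Caps σ κ N ω f → ∀ a : ι → Space (r + 1),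
      ∀ M : Fin r → ℝ, (∀ k, 1 ≤ M k) →
      ((∀ k, AverageAtMost N ω f a (coordinate N ω) k (M k)) →
        Comparison C (((∏ k, M k) * (1 + Real.log N)) ^ (1 / ((r : ℝ) + 1))) N ω f a) ∧
      (∀ (α : Type) (lam : Fin r → ι → α), Thin K N ω lam →
        (∀ k, AverageAtMost N ω f a lam k (M k)) →
        Comparison C (((∏ k, M k) * (1 + Real.log N)) ^ (1 / ((r : ℝ) + 1))) N ω f a) ∧
      (∀ (ν : ι → Fin r → Space (r + 1)) (t : ι → Fin r → ℝ), InSlabs K N ω f a ν t →
        (∀ k : Fin r, (slabCount ν t k : ℝ) ≤ M k * N ^ (k.val + 1)) →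
        Comparison C ((∏ k, M k) ^ (1 / ((r : ℝ) + 1)) * (1 + Real.log N)) N ω f a) := by
  set K₀ : ℝ := (9 * ((r : ℝ) + 1) / σ) ^ (r + 1) with hK₀
  obtain ⟨C₁, hC₁, h₁⟩ := Pool.Agent.Q86.Ks.labelled (r := r) σ κ (max K K₀) hσ hσ1 hκ
    (le_max_of_le_left (by linarith))
  obtain ⟨C₂, hC₂, h₂⟩ := Pool.Agent.Q86.Ks.slabs (r := r) σ κ K hσ hσ1 hκ hK
  have hth : ∀ p, Pool.Agent.W772.th (r + 1) p = theta r p := by
    intro p
    unfold Pool.Agent.W772.th theta
    push_cast
    rfl
  refine ⟨max C₁ C₂, lt_max_of_lt_left hC₁, ?_⟩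
  intro N hN ι _ ω f hcaps a M hM
  have hN0 : 0 < N := by linarith
  obtain ⟨hω, hsep, hcard, hf⟩ := hcaps
  have hlogN : 0 ≤ Real.log N := Real.log_nonneg hN
  have hprod : (0 : ℝ) ≤ ∏ k, M k := Finset.prod_nonneg fun k _ => by linarith [hM k]
  have hX₁ : ∀ p, (0 : ℝ) ≤ (((∏ k, M k) * (1 + Real.log N)) ^ (1 / ((r : ℝ) + 1))) ^ theta r p :=
    fun p => Real.rpow_nonneg (Real.rpow_nonneg (mul_nonneg hprod (by linarith)) _) _
  have hX₂ : ∀ p, (0 : ℝ) ≤ ((∏ k, M k) ^ (1 / ((r : ℝ) + 1)) * (1 + Real.log N)) ^ theta r p :=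
    fun p => Real.rpow_nonneg (mul_nonneg (Real.rpow_nonneg hprod _) (by linarith)) _
  have hgen : ∀ (α : Type) (lam : Fin r → ι → α), Thin (max K K₀) N ω lam →
        (∀ k, AverageAtMost N ω f a lam k (M k)) →
        Comparison (max C₁ C₂) (((∏ k, M k) * (1 + Real.log N)) ^ (1 / ((r : ℝ) + 1))) N ω f a := by
    intro α lam hthin hlab p hp
    have h := h₁ N hN ι ω f hω hsep hcard hf a α lam hthin M hM hlab p hp
    rw [hth] at h
    exact h.trans (mul_le_mul_left (ENNReal.ofReal_le_ofReal
      (mul_le_mul_of_nonneg_right (le_max_left _ _) (hX₁ p))) _)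
  refine ⟨fun hlab p hp => ?_, fun α lam hthin hlab p hp => ?_, fun ν t hs hcnt p hp => ?_⟩
  · refine hgen ℤ (coordinate N ω) (fun i ρ hρ => ?_) hlab p hp
    refine (Pool.Agent.Q86.Ks.coord_thin hN hσ hσ1 ω hsep i ρ hρ).trans ?_
    exact mul_le_mul_of_nonneg_right (le_max_right _ _) (by positivity)
  · refine hgen α lam (fun i ρ hρ => (hthin i ρ hρ).trans ?_) hlab p hp
    exact mul_le_mul_of_nonneg_right (le_max_left _ _) (by positivity)
  · have h := h₂ N hN ι ω f hω hsep hcard hf a ν t hs.1 hs.2 M hM hcnt p hp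
    rw [hth] at h
    exact h.trans (mul_le_mul_left (ENNReal.ofReal_le_ofReal
      (mul_le_mul_of_nonneg_right (le_max_right _ _) (hX₂ p))) _)

end Pool.Agent.Results.MP_ac5134_an.FewSlabs
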