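import Pool.Agent.Q87.KX.Rank2

/-!
# MP_ac5134: the volume form of the Kakeya inequality in tube form for sets with few zooms

Work in `ℝ^n = ℝ^d × ℝ`, `n = d + 1`, with its Euclidean norm (`Space d`), and let `P` be the
paraboloid `{(ω, |ω|²)}`, `|ω| ≤ 1`.  The box dual to the cap at `ω` is `box N (nor ω) f 0`: its long
side `N²` is in the direction of the unit normal `nor ω = (-2ω, 1)/√(1+4|ω|²)` and its other sides `N`
are in the directions of an arbitrary orthonormal frame `f` of the orthogonal complement.  The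
translates (the centres `a i`) are arbitrary.

Let `b ≥ 2` and `b^k ≤ N ≤ b^(k+1)`. Some orthonormal coordinates are given by an isometry `U` onto the
Euclidean space `Sp (d+1)`, where we use the `b`-adic grid of the cubes of side `s b^(k-j)`,
`j = 0, …, k`. The smallest cubes, the cells, have the side `s = 2 d N² / b^k`, which is comparable to
the width `N` of the boxes; the cubes of level `0` have the side `2 d N²`.

Let `E` be a union of cells which has at most `r` different zooms (intersections with the cubes of one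
level, translated to the origin) at each level. If on the average the proportion of the boxes in `E` is
at least `λ`, then `λ^n ∑ |T_i| ≤ C N^ε r^A |E|`. In particular a set with at most `r` different zooms
which contains all the boxes has at least the volume `c N^(-ε) r^(-A) ∑ |T_i|`, as in the conjecture.

The maximal inequality for such sets is in `MP_5168f5_an.LowMultiscaleRank`.
-/

set_option autoImplicit false

open MeasureTheory Set ENNReal NNReal

namespace Pool.Agent.Results.MP_ac5134_an.FewZooms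

open Pool.Agent.H810R3.Tub Pool.Agent.W772
open Q85.ZE (Sp cells)
open Q85.ZR (FewZooms)

/-- The caps have centres `ω i` in the closed unit ball, `σ/N`-separated and at least `κ N^d` in
number, and `f i` is an orthonormal frame of the orthogonal complement of the normal at `ω i`. -/
def Caps {d : ℕ} {ι : Type} [Fintype ι] (σ κ N : ℝ) (ω : ι → Vec d) (f : ι → Fin d → Space d) : Prop :=
  (∀ i, ‖ω i‖ ≤ 1) ∧ (∀ i j, i ≠ j → σ / N ≤ ‖ω i - ω j‖) ∧ κ * N ^ d ≤ (Fintype.card ι : ℝ) ∧
    ∀ i, Orthonormal ℝ (Fin.cons (nor (ω i)) (f i) : Fin (d + 1) → Space d)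

/-- The side of the cells. -/
noncomputable def side (d b k : ℕ) (N : ℝ) : ℝ := 2 * d * N ^ 2 / (b : ℝ) ^ k

/-- The volume inequality with the factor `K` for the set `E`: if on the average the proportion of the
boxes in `E` is at least `lam`, then `lam^(d+1)` times the sum of the volumes of the boxes is at most
`K` times the volume of `E`. -/
def Filled {d : ℕ} {ι : Type} [Fintype ι] (K N : ℝ) (ω : ι → Vec d) (f : ι → Fin d → Space d)
    (a : ι → Space d) (E : Set (Space d)) : Prop :=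
  ∀ lam : ℝ, 0 ≤ lam →
    ENNReal.ofReal lam * ∑ i, volume (box N (nor (ω i)) (f i) (a i)) ≤
      ∑ i, volume (box N (nor (ω i)) (f i) (a i) ∩ E) →
    ENNReal.ofReal (lam ^ (d + 1)) * ∑ i, volume (box N (nor (ω i)) (f i) (a i)) ≤
      ENNReal.ofReal K * volume E

/-- **The volume form of the Kakeya inequality in tube form for sets with few zooms.** -/
theorem result (d b : ℕ) (hd : 1 ≤ d) (hb : 2 ≤ b) (σ κ ε : ℝ) (hσ : 0 < σ) (hσ1 : σ ≤ 1)
    (hκ : 0 < κ) (hε : 0 < ε) :
    ∃ (C : ℝ) (A : ℕ), 0 < C ∧ ∀ k : ℕ, 1 ≤ k → ∀ N : ℝ, (b : ℝ) ^ k ≤ N → N ≤ (b : ℝ) ^ (k + 1) →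
      ∀ (ι : Type) [Fintype ι] (ω : ι → Vec d) (f : ι → Fin d → Space d), Caps σ κ N ω f →
      ∀ (a : ι → Space d) (U : Space d ≃ₗᵢ[ℝ] Sp (d + 1)) (r : ℕ), 1 ≤ r →
        ∀ 𝒜 : Set (Fin (d + 1) → ℤ), FewZooms b k r 𝒜 →
          Filled (C * N ^ ε * (r : ℝ) ^ A) N ω f a (U ⁻¹' cells (side d b k N) 𝒜) := by
  have hb1 : (1 : ℝ) ≤ b := by exact_mod_cast (by omega : 1 ≤ b)
  have hd0 : (0 : ℝ) < d := by exact_mod_cast hd
  obtain ⟨G, A₂, hG0, hG⟩ := Q87.KX.sets_int d b hd hb hε hσ hσ1 hb1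
  refine ⟨G / κ ^ d, A₂, by positivity, ?_⟩
  intro k hk N hN1 hN2 ι _ ω f hcaps a U r hr
  obtain ⟨hω, hsep, hcard, hf⟩ := hcaps
  have hbk : (1 : ℝ) ≤ (b : ℝ) ^ k := one_le_pow₀ hb1
  have hN : 1 ≤ N := by linarith
  have hN0 : 0 < N := by linarith
  have hN2' : N ≤ b * (b : ℝ) ^ k := by rw [pow_succ] at hN2; linarith
  have hr1 : (1 : ℝ) ≤ r := by exact_mod_cast hr
  have hNε : 1 ≤ N ^ ε := Real.one_le_rpow hN hε.le
  intro 𝒜 hZ lam hlam hle
  have hvol : volume (U ⁻¹' cells (side d b k N) 𝒜) =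
      volume (cells (2 * d * N ^ 2 / (b : ℝ) ^ k) 𝒜) :=
    MeasurePreserving.measure_preimage_equiv (f := U.toMeasurableEquiv) U.measurePreserving _
  rw [hvol]
  have h1 := hG k hk N hN1 hN2' ι ω hω hsep f hf a U r hr 𝒜 hZ
  set V : ℝ := (Fintype.card ι : ℝ) * N ^ (d + 2) with hV
  have hsum : ∑ i, volume (box N (nor (ω i)) (f i) (a i)) = ENNReal.ofReal V := by
    simp only [vol_box hN (hf _)]
    rw [Finset.sum_const, Finset.card_univ, nsmul_eq_mul, hV,
      ENNReal.ofReal_mul (Nat.cast_nonneg _), ENNReal.ofReal_natCast]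
  have hVge : κ * N ^ (2 * (d + 1)) ≤ V := by
    calc κ * N ^ (2 * (d + 1)) = (κ * N ^ d) * N ^ (d + 2) := by ring
      _ ≤ V := mul_le_mul_of_nonneg_right hcard (by positivity)
  have hV0 : 0 < V := lt_of_lt_of_le (by positivity) hVge
  rw [hsum] at hle ⊢
  have h2 : (ENNReal.ofReal lam * ENNReal.ofReal V) ^ (d + 1) ≤
      ENNReal.ofReal (G * N ^ (2 * d * (d + 1)) * (N ^ ε * (r : ℝ) ^ A₂)) *
      volume (cells (2 * d * N ^ 2 / (b : ℝ) ^ k) 𝒜) := (pow_le_pow_left' hle _).trans h1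
  have hX : 0 < κ ^ d * N ^ (2 * d * (d + 1)) := by positivity
  have hX0 : ENNReal.ofReal (κ ^ d * N ^ (2 * d * (d + 1))) ≠ 0 := (ENNReal.ofReal_pos.2 hX).ne'
  rw [← ENNReal.mul_le_mul_iff_right hX0 ENNReal.ofReal_ne_top]
  calc ENNReal.ofReal (κ ^ d * N ^ (2 * d * (d + 1))) *
        (ENNReal.ofReal (lam ^ (d + 1)) * ENNReal.ofReal V)
      = ENNReal.ofReal (lam ^ (d + 1) * ((κ * N ^ (2 * (d + 1))) ^ d * V)) := by
        rw [← ENNReal.ofReal_mul (by positivity), ← ENNReal.ofReal_mul (by positivity)]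
        congr 1
        rw [mul_pow, ← pow_mul]
        ring
    _ ≤ ENNReal.ofReal (lam ^ (d + 1) * (V ^ d * V)) := by
        apply ENNReal.ofReal_le_ofReal
        gcongr
    _ = (ENNReal.ofReal lam * ENNReal.ofReal V) ^ (d + 1) := by
        rw [← ENNReal.ofReal_mul hlam, ← ENNReal.ofReal_pow (by positivity)]
        congr 1
        rw [mul_pow]
        ring
    _ ≤ ENNReal.ofReal (G * N ^ (2 * d * (d + 1)) * (N ^ ε * (r : ℝ) ^ A₂)) *
        volume (cells (2 * d * N ^ 2 / (b : ℝ) ^ k) 𝒜) := h2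
    _ ≤ ENNReal.ofReal ((κ ^ d * N ^ (2 * d * (d + 1))) *
          ((G / κ ^ d) * N ^ ε * (r : ℝ) ^ A₂)) *
        volume (cells (2 * d * N ^ 2 / (b : ℝ) ^ k) 𝒜) := by
        refine mul_le_mul' (ENNReal.ofReal_le_ofReal ?_) le_rfl
        have h3 : G = κ ^ d * (G / κ ^ d) := by
          rw [mul_div_cancel₀ _ (by positivity)]
        calc G * N ^ (2 * d * (d + 1)) * (N ^ ε * (r : ℝ) ^ A₂)
            = (κ ^ d * (G / κ ^ d)) * N ^ (2 * d * (d + 1)) *
              (N ^ ε * (r : ℝ) ^ A₂) := by rw [← h3]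
          _ ≤ _ := le_of_eq (by ring)
    _ = _ := by
        rw [ENNReal.ofReal_mul (p := κ ^ d * N ^ (2 * d * (d + 1))) (by positivity), mul_assoc]

end Pool.Agent.Results.MP_ac5134_an.FewZooms
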