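import Pool.Agent.Q87.KX.Rank2

/-!
# MP_ac5134: the Kakeya inequality in tube form and functions of low multiscale rank

Work in `ℝ^n = ℝ^d × ℝ`, `n = d + 1`, with its Euclidean norm (`Space d`), and let `P` be the
paraboloid `{(ω, |ω|²)}`, `|ω| ≤ 1`.  The box dual to the cap at `ω` is `box N (nor ω) f 0`: its long
side `N²` is in the direction of the unit normal `nor ω = (-2ω, 1)/√(1+4|ω|²)` and its other sides `N`
are in the directions of an arbitrary orthonormal frame `f` of the orthogonal complement.  The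
translates (the centres `a i`) are arbitrary.

Let `b ≥ 2` and `b^k ≤ N ≤ b^(k+1)`. Some orthonormal coordinates are given by an isometry `U` onto the
Euclidean space `Sp (d+1)`, where we use the `b`-adic grid of the cubes of side `s b^(k-j)`,
`j = 0, …, k`. The smallest cubes, the cells, have the side `s = 2 d N² / b^k`, which is comparable to
the width `N` of the boxes; the cubes of level `0` have the side `2 d N²`.  A nonnegative function on
the cells has multiscale rank at most `r` if on each cube of level `0` there are, for every level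
`j ≤ k`, nonnegative functions `ψ_j(1), …, ψ_j(r)` on a cube of level `j`, such that the function is a
nonnegative combination of the `ψ_0(i)`, and such that the restriction of every `ψ_j(i)` to each of
the `b^n` subcubes of the next level is a nonnegative combination of the `ψ_{j+1}(i')`.

If the number `F` of the boxes through a point is at most `g^(n-1)` and the integral of `g^n` is at
most `Λ` times the one of `F^(n/(n-1))`, for some `g` of multiscale rank at most `r`, then the
comparison of Q1 with the centred family holds for all `p` in `[1, ∞]` with the factor `C N^ε r^A Λ`.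

The maximal inequality for functions of low multiscale rank is `MP_5168f5_an.LowMultiscaleRank`.
-/

set_option autoImplicit false

open MeasureTheory Set ENNReal NNReal

namespace Pool.Agent.Results.MP_ac5134_an.LowRankMajorants

open Pool.Agent.H810R3.Tub Pool.Agent.W772
open Q85.ZE (Sp idx)
open Q85.ZR (cellFun LowRank)

/-- The caps have centres `ω i` in the closed unit ball, `σ/N`-separated and at least `κ N^d` in
number, and `f i` is an orthonormal frame of the orthogonal complement of the normal at `ω i`. -/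
def Caps {d : ℕ} {ι : Type} [Fintype ι] (σ κ N : ℝ) (ω : ι → Vec d) (f : ι → Fin d → Space d) : Prop :=
  (∀ i, ‖ω i‖ ≤ 1) ∧ (∀ i j, i ≠ j → σ / N ≤ ‖ω i - ω j‖) ∧ κ * N ^ d ≤ (Fintype.card ι : ℝ) ∧
    ∀ i, Orthonormal ℝ (Fin.cons (nor (ω i)) (f i) : Fin (d + 1) → Space d)

/-- The sum of the indicators of the boxes of the caps with centres `a i`. -/
noncomputable def boxSum {d : ℕ} {ι : Type} [Fintype ι] (N : ℝ) (ω : ι → Vec d)
    (f : ι → Fin d → Space d) (a : ι → Space d) (y : Space d) : ℝ :=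
  ∑ i, (box N (nor (ω i)) (f i) (a i)).indicator (fun _ => (1 : ℝ)) y

/-- The side of the cells. -/
noncomputable def side (d b k : ℕ) (N : ℝ) : ℝ := 2 * d * N ^ 2 / (b : ℝ) ^ k

/-- The nonnegative function `F` on `ℝ^(d+1)` is, in the coordinates given by `U`, at most `g ^ d`, and
the integral of `g ^ (d+1)` is at most `Λ` times the integral of `F ^ (1+1/d)`; here `g` is the function
with the values `φ v` on the cells (the cubes of side `s`) number `v`. -/
def Majorant {d : ℕ} (s Λ : ℝ) (U : Space d ≃ₗᵢ[ℝ] Sp (d + 1)) (φ : (Fin (d + 1) → ℤ) → ℝ)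
    (F : Space d → ℝ) : Prop :=
  (∀ y, F y ≤ φ (idx s (U y)) ^ d) ∧
    ∫⁻ x, cellFun s φ x ^ (d + 1) ≤
      ENNReal.ofReal Λ * ∫⁻ y, ENNReal.ofReal (F y) ^ (1 + 1 / (d : ℝ))

/-- The comparison of Q1 with the factor `K`: the `L^p` norm of the sum of the indicators of the boxes
with the centres `a i` is at most `K` times the one for the boxes centred at `0`, for all `p` in
`[1, ∞]`. -/
def Comparison {d : ℕ} {ι : Type} [Fintype ι] (K N : ℝ) (ω : ι → Vec d) (f : ι → Fin d → Space d)
    (a : ι → Space d) : Prop :=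
  ∀ p : ℝ≥0∞, 1 ≤ p → eLpNorm (boxSum N ω f a) p volume ≤
    ENNReal.ofReal K * eLpNorm (boxSum N ω f 0) p volume

/-- **The Kakeya inequality in tube form, for all `p` in `[1, ∞]` and all translates for which the
multiplicity function has a majorant of low multiscale rank.** -/
theorem result (d b : ℕ) (hd : 1 ≤ d) (hb : 2 ≤ b) (σ κ ε : ℝ) (hσ : 0 < σ) (hσ1 : σ ≤ 1)
    (hκ : 0 < κ) (hε : 0 < ε) :
    ∃ (C : ℝ) (A : ℕ), 0 < C ∧ ∀ k : ℕ, 1 ≤ k → ∀ N : ℝ, (b : ℝ) ^ k ≤ N → N ≤ (b : ℝ) ^ (k + 1) →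
      ∀ (ι : Type) [Fintype ι] (ω : ι → Vec d) (f : ι → Fin d → Space d), Caps σ κ N ω f →
      ∀ (a : ι → Space d) (U : Space d ≃ₗᵢ[ℝ] Sp (d + 1)) (r : ℕ), 1 ≤ r →
        ∀ φ : (Fin (d + 1) → ℤ) → ℝ, LowRank b k r φ → ∀ Λ : ℝ, 1 ≤ Λ →
          Majorant (side d b k N) Λ U φ (boxSum N ω f a) →
          Comparison (C * N ^ ε * (r : ℝ) ^ A * Λ) N ω f a := by
  have hb1 : (1 : ℝ) ≤ b := by exact_mod_cast (by omega : 1 ≤ b)
  have hd0 : (0 : ℝ) < d := by exact_mod_cast hd
  obtain ⟨E, A₁, hE0, hE⟩ := Q87.KX.rank_int d b hd hb hε hσ hσ1 hb1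
  obtain ⟨D, hD1, hD⟩ := compare_tri d hd κ E hκ hE0
  refine ⟨D, A₁, by positivity, ?_⟩
  intro k hk N hN1 hN2 ι _ ω f hcaps a U r hr
  obtain ⟨hω, hsep, hcard, hf⟩ := hcaps
  have hbk : (1 : ℝ) ≤ (b : ℝ) ^ k := one_le_pow₀ hb1
  have hN : 1 ≤ N := by linarith
  have hN0 : 0 < N := by linarith
  have hN2' : N ≤ b * (b : ℝ) ^ k := by rw [pow_succ] at hN2; linarith
  have hne : Nonempty ι := by
    have h1 : 0 < κ * N ^ d := by positivity
    have h2 : (0 : ℝ) < (Fintype.card ι : ℝ) := by linarith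
    have h3 : 0 < Fintype.card ι := by exact_mod_cast h2
    exact Fintype.card_pos_iff.1 h3
  have hr1 : (1 : ℝ) ≤ r := by exact_mod_cast hr
  have hNε : 1 ≤ N ^ ε := Real.one_le_rpow hN hε.le
  intro φ hφ Λ hΛ hmaj p hp
  have hFb : ∀ y, Fb N ω f a y = ENNReal.ofReal (boxSum N ω f a y) := by
    intro y
    have h1 := enorm_sum_box N ω f a y
    rw [← h1]
    have h2 : 0 ≤ ∑ i, (box N (nor (ω i)) (f i) (a i)).indicator (fun _ => (1 : ℝ)) y :=
      Finset.sum_nonneg fun i _ => indicator_nonneg (fun _ _ => zero_le_one) _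
    rw [Real.enorm_eq_ofReal h2]
    rfl
  have hrA : (1 : ℝ) ≤ (r : ℝ) ^ A₁ := one_le_pow₀ hr1
  set W : ℝ := N ^ ε * (r : ℝ) ^ A₁ * Λ with hW
  have hW1 : 1 ≤ W := by
    have h1 : 1 ≤ N ^ ε * (r : ℝ) ^ A₁ := one_le_mul_of_one_le_of_one_le hNε hrA
    exact one_le_mul_of_one_le_of_one_le h1 hΛ
  have hW0 : 0 < W := by linarith
  have hWd : 1 ≤ W ^ (1 / (d : ℝ)) := Real.one_le_rpow hW1 (by positivity)
  have h1 := hE k hk N hN1 hN2' ι ω hω hsep f hf a U r hr φ hφ Λ hΛ (by
    intro y
    rw [hFb y]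
    unfold cellFun
    rw [← ENNReal.ofReal_pow (hφ.1 _)]
    exact ENNReal.ofReal_le_ofReal (hmaj.1 y)) (by
    simp only [hFb]
    exact hmaj.2)
  have h2 := hD hN hWd ω f hf a hcard h1 p hp
  refine h2.trans (mul_le_mul' (ENNReal.ofReal_le_ofReal ?_) le_rfl)
  have hth1 : th d p ≤ 1 := by
    unfold th
    rcases eq_or_ne p ∞ with ht | ht
    · rw [ht]
      refine (min_le_right _ _).trans ?_
      simp
    · refine (min_le_right _ _).trans ?_
      have h3 : 1 ≤ p.toReal := by
        rw [← ENNReal.toReal_one]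
        exact ENNReal.toReal_mono ht hp
      rw [div_le_one (by linarith)]
      exact h3
  have h4 : (W ^ (1 / (d : ℝ))) ^ th d p ≤ W := by
    calc (W ^ (1 / (d : ℝ))) ^ th d p ≤ (W ^ (1 / (d : ℝ))) ^ (1 : ℝ) :=
          Real.rpow_le_rpow_of_exponent_le hWd hth1
      _ = W ^ (1 / (d : ℝ)) := Real.rpow_one _
      _ ≤ W ^ (1 : ℝ) := by
          apply Real.rpow_le_rpow_of_exponent_le hW1
          rw [div_le_one hd0]
          exact_mod_cast hd
      _ = W := Real.rpow_one _
  have hD0 : 0 < D := by linarith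
  calc D * (W ^ (1 / (d : ℝ))) ^ th d p ≤ D * W :=
        mul_le_mul (by linarith) h4 (by positivity) (by positivity)
    _ = D * N ^ ε * (r : ℝ) ^ A₁ * Λ := by rw [hW]; ring

end Pool.Agent.Results.MP_ac5134_an.LowRankMajorants
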